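import Pool.Agent.helper69.AD.GS6

/-!
Module XF1 (MP_a29257_gt): marked structures from representations.
-/

open scoped MatrixGroups LinearAlgebra.Projectivization
open Matrix UpperHalfPlane

namespace AdSBend

theorem XF1_psl {g h : SL(2, ℝ)} (e : PEq g h) : (g : PSL(2, ℝ)) = (h : PSL(2, ℝ)) := by
  rcases e with rfl | rfl
  · rfl
  · refine QuotientGroup.eq.2 ?_
    have e1 : (-h)⁻¹ * h = -1 := inv_mul_eq_iff_eq_mul.2 (by simp)
    rw [e1]
    rw [Subgroup.mem_center_iff]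
    intro g
    simp

theorem XF1 (h11 : BD11_stmt) : XF1_stmt := by
  intro Γ f r hc
  have hp : IsPRep Γ r := (h11 Γ f r hc).2.2.2.2.2
  have hmul : ∀ γ ∈ Γ, ∀ δ ∈ Γ, PEq (r (γ * δ)) (r γ * r δ) := fun γ hγ δ hδ =>
    hp γ hγ δ hδ (γ * δ) (Γ.mul_mem hγ hδ) (Or.inl rfl)
  have hone : PEq (r 1) 1 := by
    have h1 := hmul 1 Γ.one_mem 1 Γ.one_mem
    rw [mul_one] at h1
    rcases h1 with h1 | h1
    · left
      exact (mul_eq_left.1 h1.symm)
    · right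
      have : r 1 * (-1) = r 1 * r 1 := by
        rw [mul_neg, mul_one]
        nth_rewrite 1 [h1]
        simp
      exact (mul_left_cancel this).symm
  refine ⟨⟨⟨⟨fun γ => ((r (γ : SL(2, ℝ)) : SL(2, ℝ)) : PSL(2, ℝ)), ?_⟩, ?_⟩, f, hc.1, ?_⟩, rfl,
    fun γ => rfl⟩
  · exact (XF1_psl hone).trans rfl
  · intro γ δ
    exact (XF1_psl (hmul γ γ.2 δ δ.2)).trans rfl
  · intro γ x
    exact hc.2 γ γ.2 x

end AdSBend
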