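import Pool.Agent.helper69.AD.GS6
import Pool.Agent.helper71.AG.BR5

/-!
Modules XF2 and XF3 (MP_a29257_gt): earthquakes give bending.
-/

open scoped MatrixGroups LinearAlgebra.Projectivization
open Matrix UpperHalfPlane

namespace AdSBend

theorem XF2_trace (hTW1 : TW1_stmt) (g h : SL(2, ℝ)) (s : ℝ) (hg : 2 < |trc g|) :
    |Matrix.trace ((h * twS g s * h⁻¹ : SL(2, ℝ)) : Matrix (Fin 2) (Fin 2) ℝ)| =
      2 * Real.cosh (s / 2) := by
  have e1 : Matrix.trace ((h * twS g s * h⁻¹ : SL(2, ℝ)) : Matrix (Fin 2) (Fin 2) ℝ) =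
      Matrix.trace ((twS g s : SL(2, ℝ)) : Matrix (Fin 2) (Fin 2) ℝ) := by
    rw [Matrix.SpecialLinearGroup.coe_mul, Matrix.trace_mul_comm,
      ← Matrix.SpecialLinearGroup.coe_mul, inv_mul_cancel_left]
  have ht := hTW1.2.2.2 g hg
  have htr : axis g 0 0 + axis g 1 1 = 0 := by
    have := ht.2.1
    rwa [Matrix.trace_fin_two] at this
  have hdet : axis g 0 0 * axis g 1 1 - axis g 0 1 * axis g 1 0 = -1 := by
    have := ht.2.2.1
    rwa [Matrix.det_fin_two] at this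
  have hd : (Real.cosh (s / 2) • (1 : Matrix (Fin 2) (Fin 2) ℝ) +
      Real.sinh (s / 2) • axis g).det = 1 := by
    rw [Matrix.det_fin_two]
    simp only [Matrix.add_apply, Matrix.smul_apply, smul_eq_mul, Matrix.one_apply_eq, mul_one]
    rw [Matrix.one_apply_ne (by decide : (0 : Fin 2) ≠ 1),
      Matrix.one_apply_ne (by decide : (1 : Fin 2) ≠ 0)]
    have h11 : axis g 1 1 = - axis g 0 0 := by linarith
    rw [h11] at hdet ⊢
    have hc := Real.cosh_sq (s / 2)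
    nlinarith [hc, hdet]
  have e0 : twS g s = ⟨_, hd⟩ := by
    unfold twS
    exact dif_pos hd
  have e2 : ((twS g s : SL(2, ℝ)) : Matrix (Fin 2) (Fin 2) ℝ) =
      Real.cosh (s / 2) • (1 : Matrix (Fin 2) (Fin 2) ℝ) + Real.sinh (s / 2) • axis g := by
    rw [e0]
  rw [e1, e2, Matrix.trace_add, Matrix.trace_smul, Matrix.trace_smul, Matrix.trace_one, ht.2.1]
  simp only [Fintype.card_fin, smul_eq_mul, mul_zero, add_zero]
  have hc := Real.cosh_pos (s / 2)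
  rw [abs_of_nonneg]
  · push_cast
    ring
  · push_cast
    positivity

theorem XF2_adj (hPT1 : PT1_stmt) {Γ : Subgroup SL(2, ℝ)} (l : WeightedMulticurve Γ)
    (S : LeafSystem Γ) (hS : ∀ p : Bd × Bd, p ∈ S.L ↔ l.w p.1 p.2 ≠ 0) (x y : Bd) (z z' : ℍ)
    (h : l.AdjacentAlong x y z z') :
    ∃ p, S.Across p z z' ∧ l.w p.1 p.2 = l.w x y := by
  obtain ⟨hw, hsep, huni⟩ := h
  have hs : ∀ z, side z y x = -side z x y := fun z => (hPT1 1 z x y).2.2.2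
  by_cases h0 : side z x y < 0
  · refine ⟨(x, y), ⟨(hS (x, y)).2 hw, h0, ?_, ?_⟩, rfl⟩
    · have h1 : side z x y * side z' x y < 0 := hsep
      show 0 < side z' x y
      by_contra hcon
      push Not at hcon
      nlinarith [mul_nonneg_of_nonpos_of_nonpos h0.le hcon]
    · intro q hq hq2
      rcases huni q.1 q.2 ((hS q).1 hq) hq2 with ⟨e1, e2⟩ | ⟨e1, e2⟩
      · left
        exact Prod.ext e1 e2
      · right
        exact Prod.ext e1 e2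
  · have h1 : side z x y * side z' x y < 0 := hsep
    have h2 : 0 < side z x y := by
      rcases lt_or_eq_of_le (not_lt.1 h0) with h | h
      · exact h
      · rw [← h, zero_mul] at h1
        exact absurd h1 (lt_irrefl _)
    refine ⟨(y, x), ⟨(hS (y, x)).2 (by rw [l.symm]; exact hw), ?_, ?_, ?_⟩, l.symm y x⟩
    · show side z y x < 0
      rw [hs]; linarith
    · show 0 < side z' y x
      rw [hs]
      by_contra hcon
      push Not at hcon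
      have : 0 ≤ side z' x y := by linarith
      nlinarith [mul_nonneg h2.le this]
    · intro q hq hq2
      rcases huni q.1 q.2 ((hS q).1 hq) hq2 with ⟨e1, e2⟩ | ⟨e1, e2⟩
      · right
        exact Prod.ext e1 e2
      · left
        exact Prod.ext e1 e2

theorem XF2_visible (hBD4 : BD4_stmt) (hPT1 : PT1_stmt) (hPT3 : PT3_stmt) (hPN1 : PN1_stmt)
    (hPN3 : PN3_stmt) (hPN6 : PN6_stmt) {Γ : Subgroup SL(2, ℝ)} (hΓ : IsClosedSurfaceGroup Γ)
    (S : LeafSystem Γ) (z : ℍ) (hz : S.OffPt z) : ∃ c, ∀ p ∈ S.L, ¬ SepIdeal p.1 p.2 z c := by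
  by_cases hne : S.L.Nonempty
  · obtain ⟨p, hp, hn⟩ := BR5_near hPN3 hPN6 hΓ S hne z hz
    exact ⟨p.1, BR5_vis hBD4 hPT1 hPT3 hPN1 hΓ S p hp z hn p.1 (Or.inl rfl)⟩
  · refine ⟨bInf, fun p hp => absurd ⟨p, hp⟩ hne⟩

theorem XF2 (hBD4 : BD4_stmt) (hPT1 : PT1_stmt) (hPT3 : PT3_stmt) (hPN1 : PN1_stmt)
    (hPN3 : PN3_stmt) (hPN6 : PN6_stmt) (hTW1 : TW1_stmt) (hTF2 : TF2_stmt)
    (hXE9 : XE9_stmt) : XF2_stmt := by
  intro Γ hΓ l S hS M r r' B hr hr' hB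
  have hoff : ∀ z, l.Off z → S.OffPt z := fun z hz p hp => hz p.1 p.2 ((hS p).1 hp)
  refine ⟨fun z => (B z)⁻¹, fun z hz => ⟨⟨?_, ?_⟩, ?_⟩, ?_⟩
  · obtain ⟨c, hc⟩ := XF2_visible hBD4 hPT1 hPT3 hPN1 hPN3 hPN6 hΓ S z (hoff z hz)
    refine ⟨c, ?_⟩
    have := hB.2 z (hoff z hz) c hc
    show (B z)⁻¹ • M.left.bd c = M.right.bd c
    rw [← this, inv_smul_smul]
  · intro c₀ c hc₀
    refine hXE9 Γ hΓ S _ _ _ r r' B hr hr' hB (fun p _ => ?_) z (hoff z hz) c c₀ ?_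
    · have := l.nonneg p.1 p.2
      show 0 ≤ 2 * l.w p.1 p.2
      linarith
    · have h1 : (B z)⁻¹ • M.left.bd c₀ = M.right.bd c₀ := hc₀
      rw [← h1, smul_inv_smul]
  · intro c hc
    have := hB.2 z (hoff z hz) c (fun p hp => hc p.1 p.2 ((hS p).1 hp))
    show (B z)⁻¹ • M.left.bd c = M.right.bd c
    rw [← this, inv_smul_smul]
  · intro z z' x y hz hz' hadj
    obtain ⟨p, hac, hw⟩ := XF2_adj hPT1 l S hS x y z z' hadj
    have e := hB.1.2 z z' p (hoff z hz) (hoff z' hz') hac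
    have hp2 : 2 < |trc (r (gen Γ p))| := (hTF2 Γ hΓ S _ r hr).1.2.1 p hac.1
    have e2 : (((B z)⁻¹)⁻¹ * (B z')⁻¹ : SL(2, ℝ)) =
        B z * twS (r (gen Γ p)) (2 * l.w p.1 p.2) * (B z)⁻¹ := by
      have e3 : (twS (r (gen Γ p)) (-(2 * l.w p.1 p.2)))⁻¹ =
          twS (r (gen Γ p)) (2 * l.w p.1 p.2) := by
        have := (hTW1.2.2.1 (r (gen Γ p)) (-(2 * l.w p.1 p.2)) 0 hp2).2.2.2.2.2.2
        rw [this, neg_neg]
      have e' : B z' = B z * twS (r (gen Γ p)) (-(2 * l.w p.1 p.2)) := e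
      rw [e', _root_.mul_inv_rev, e3, inv_inv, mul_assoc]
    rw [e2, XF2_trace hTW1 _ _ _ hp2, hw]
    congr 2
    ring

theorem XF3_core (hBD4 : BD4_stmt) (hPT1 : PT1_stmt) (hPT3 : PT3_stmt) (hPN1 : PN1_stmt)
    (hPN3 : PN3_stmt) (hPN6 : PN6_stmt) (hTW1 : TW1_stmt) (hTF2 : TF2_stmt) (hBD2 : BD2_stmt)
    (hXE9 : XE9_stmt) : XF3_stmt := by
  intro Γ hΓ l S hS M r r' B hr hr' hB
  have hoff : ∀ z, l.Off z → S.OffPt z := fun z hz p hp => hz p.1 p.2 ((hS p).1 hp)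
  refine ⟨fun z => B z, fun z hz => ⟨⟨?_, ?_⟩, ?_⟩, ?_⟩
  · obtain ⟨c, hc⟩ := XF2_visible hBD4 hPT1 hPT3 hPN1 hPN3 hPN6 hΓ S z (hoff z hz)
    exact ⟨c, hB.2 z (hoff z hz) c hc⟩
  · intro c₀ c hc₀ hcyc
    have h1 : B z • M.left.bd c₀ = M.right.bd c₀ := hc₀
    refine hXE9 Γ hΓ S _ _ _ r r' B hr hr' hB (fun p _ => ?_) z (hoff z hz) c c₀ h1 ?_
    · have := l.nonneg p.1 p.2
      show 0 ≤ 2 * l.w p.1 p.2
      linarith
    · have h2 := (hBD2 (B z)⁻¹ (M.right.bd c) (B z • M.left.bd c) (M.right.bd c₀)).2 hcyc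
      rw [← h1, inv_smul_smul, inv_smul_smul] at h2
      exact h2
  · intro c hc
    exact hB.2 z (hoff z hz) c (fun p hp => hc p.1 p.2 ((hS p).1 hp))
  · intro z z' x y hz hz' hadj
    obtain ⟨p, hac, hw⟩ := XF2_adj hPT1 l S hS x y z z' hadj
    have e := hB.1.2 z z' p (hoff z hz) (hoff z' hz') hac
    have hp2 : 2 < |trc (r (gen Γ p))| := (hTF2 Γ hΓ S _ r hr).1.2.1 p hac.1
    have e' : B z' = B z * twS (r (gen Γ p)) (-(2 * l.w p.1 p.2)) := e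
    have e2 : ((B z)⁻¹ * B z' : SL(2, ℝ)) =
        1 * twS (r (gen Γ p)) (-(2 * l.w p.1 p.2)) * (1 : SL(2, ℝ))⁻¹ := by
      rw [e', inv_mul_cancel_left, inv_one, mul_one, one_mul]
    have e3 := XF2_trace hTW1 (r (gen Γ p)) 1 (-(2 * l.w p.1 p.2)) hp2
    show |Matrix.trace (((B z)⁻¹ * B z' : SL(2, ℝ)) : Matrix (Fin 2) (Fin 2) ℝ)| = _
    rw [e2, e3, hw]
    rw [show -(2 * l.w x y) / 2 = -(l.w x y) by ring, Real.cosh_neg]

end AdSBend
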