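import Pool.Agent.helper69.AG.XF2

/-!
Module XF3 (MP_a29257_gt).
-/

namespace AdSBend

theorem XF3 (hBD4 : BD4_stmt) (hPT1 : PT1_stmt) (hPT3 : PT3_stmt) (hPN1 : PN1_stmt)
    (hPN3 : PN3_stmt) (hPN6 : PN6_stmt) (hTW1 : TW1_stmt) (hTF2 : TF2_stmt) (hBD2 : BD2_stmt)
    (hXE9 : XE9_stmt) : XF3_stmt :=
  XF3_core hBD4 hPT1 hPT3 hPN1 hPN3 hPN6 hTW1 hTF2 hBD2 hXE9

end AdSBend
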