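import Pool.Agent.helper69.AD.GS6

/-!
Module XG1 (MP_a29257_gt): twists along a larger leaf system with weight zero on the additional
leaves.
-/

open scoped MatrixGroups LinearAlgebra.Projectivization
open Matrix UpperHalfPlane

namespace AdSBend

theorem XG1 (hPM2 : PM2_stmt) (hTW1 : TW1_stmt) : XG1_stmt := by
  intro Γ hΓ l S₀ S hS₀ hsub r T z₀ A A₀ hhyp hT hz₀ hA hA₀ z hz
  have hoff : ∀ z, S.OffPt z → S₀.OffPt z := fun z hz p hp => hz p (hsub hp)
  have hsame : ∀ z z', S.SamePl z z' → S₀.SamePl z z' := fun z z' h p hp => h p (hsub hp)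
  have hmap : S.IsPlaqueMap (fun p => twS (r (gen Γ p)) (-T p)) A₀ := by
    refine ⟨fun z z' hz hz' hs => hA₀.1.1 z z' (hoff z hz) (hoff z' hz') (hsame z z' hs), ?_⟩
    intro z z' p hz hz' hac
    obtain ⟨hp, h1, h2, h3⟩ := hac
    by_cases hw : l.w p.1 p.2 = 0
    · have hs : S₀.SamePl z z' := by
        intro q hq hsep
        have hqw : l.w q.1 q.2 ≠ 0 := (hS₀ q).1 hq
        rcases h3 q (hsub hq) hsep with e | e
        · rw [e] at hqw
          exact hqw hw
        · rw [e] at hqw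
          exact hqw (by rw [l.symm]; exact hw)
      have e1 := hA₀.1.1 z z' (hoff z hz) (hoff z' hz') hs
      have e2 : twS (r (gen Γ p)) (-T p) = 1 := by
        rw [hT p hp, hw, mul_zero, neg_zero]
        exact (hTW1.2.2.1 (r (gen Γ p)) 0 0 (hhyp p hp)).2.2.2.2.2.1
      show A₀ z' = A₀ z * twS (r (gen Γ p)) (-T p)
      rw [e2, mul_one, ← e1]
    · have hp0 : p ∈ S₀.L := (hS₀ p).2 hw
      have e1 := hA₀.1.2 z z' p (hoff z hz) (hoff z' hz')
        ⟨hp0, h1, h2, fun q hq => h3 q (hsub hq)⟩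
      show A₀ z' = A₀ z * twS (r (gen Γ p)) (-T p)
      rw [hT p hp]
      exact e1
  have e := hPM2 Γ hΓ S _ A A₀ hA.1 hmap z₀ z hz₀ hz
  rw [hA.2, hA₀.2] at e
  simpa using e

end AdSBend
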