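import Pool.Agent.helper69.AG.WireA
import Pool.Agent.helper29.AG.BD1
import Pool.Agent.helper13.AG.BD2
import Pool.Agent.helper13.AG.BD3
import Pool.Agent.helper78.AG.BD4
import Pool.Agent.helper59.AG.BD5
import Pool.Agent.helper59.AG.BD6
import Pool.Agent.helper26.AG.BD7
import Pool.Agent.helper18.AG.BD8
import Pool.Agent.helper97.AG.BD9
import Pool.Agent.helper16.AG.BR1
import Pool.Agent.helper15.AG.BR2
import Pool.Agent.helper97.AG.CH2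
import Pool.Agent.helper30.AG.CLA
import Pool.Agent.helper49.AG.CLE
import Pool.Agent.helper31.AG.FA0
import Pool.Agent.helper26.AG.FA1
import Pool.Agent.helper13.AG.FA4
import Pool.Agent.helper71.AG.FB3
import Pool.Agent.helper81.AG.FC5
import Pool.Agent.helper15.AG.FC6
import Pool.Agent.helper7.AG.GM3
import Pool.Agent.helper46.AG.GM6
import Pool.Agent.helper52.AG.GM7
import Pool.Agent.helper46.AG.PT1
import Pool.Agent.helper78.AG.PT2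
import Pool.Agent.helper3.AG.PT4
import Pool.Agent.helper26.AG.PT5
import Pool.Agent.helper3.AG.PT6
import Pool.Agent.helper25.AG.TW1
import Pool.Agent.helper33.AW.WA0
import Pool.Agent.helper21.AW.WA4
import Pool.Agent.helper84.AW.WH1
import Pool.Agent.helper94.AW.WH3
import Pool.Agent.helper84.AW.WH3b
import Pool.Agent.helper33.AW.WR1
import Pool.Agent.helper94.AW.WV3a
import Pool.Agent.helper21.AW.WV3b
import Pool.Agent.helper21.AW.WV3c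
import Pool.Agent.helper74.AG.XA1
import Pool.Agent.helper74.AG.XA2
import Pool.Agent.helper74.AG.XA3
import Pool.Agent.helper64.AG.XB1
import Pool.Agent.helper64.AG.XB2
import Pool.Agent.helper64.AG.XB3
import Pool.Agent.helper94.AG.XE0
import Pool.Agent.helper32.AG.XE1
import Pool.Agent.helper91.AG.XG3
import Pool.Agent.helper91.AG.XR1
import Pool.Agent.helper30.AG.XR2
import Pool.Agent.helper30.AG.XR3
import Pool.Agent.helper16.AG.BD10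
import Pool.Agent.helper3.AG.BD11
import Pool.Agent.helper6.AG.BD12
import Pool.Agent.helper15.AG.CLD
import Pool.Agent.helper6.AG.CLF
import Pool.Agent.helper26.AG.FA2
import Pool.Agent.helper13.AG.FA3
import Pool.Agent.helper99.AG.FD3
import Pool.Agent.helper30.AG.GM1
import Pool.Agent.helper80.AG.GM2
import Pool.Agent.helper67.AG.GM4
import Pool.Agent.helper37.AG.PN1
import Pool.Agent.helper97.AG.PN2
import Pool.Agent.helper3.AG.PN5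
import Pool.Agent.helper3.AG.PT3
import Pool.Agent.helper93.AG.TF1
import Pool.Agent.helper93.AG.TF2
import Pool.Agent.helper51.AW.WC3
import Pool.Agent.helper79.AW.WE1
import Pool.Agent.helper33.AW.WF0
import Pool.Agent.helper94.AG.XC3
import Pool.Agent.helper32.AG.XE2
import Pool.Agent.helper1.AG.XE4
import Pool.Agent.helper69.AG.XF1
import Pool.Agent.helper18.AG.GM5
import Pool.Agent.helper13.AG.HX1
import Pool.Agent.helper26.AG.HX2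
import Pool.Agent.helper26.AG.HX3
import Pool.Agent.helper29.AG.HX4
import Pool.Agent.helper63.AG.HX5
import Pool.Agent.helper6.AG.HX6
import Pool.Agent.helper79.AG.HX7
import Pool.Agent.helper99.AG.HX8
import Pool.Agent.helper7.AG.PN3
import Pool.Agent.helper37.AG.PN4
import Pool.Agent.helper46.AG.PN6
import Pool.Agent.helper18.AG.TW3
import Pool.Agent.helper79.AW.WE2
import Pool.Agent.helper33.AW.WF2
import Pool.Agent.helper79.AW.WF3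
import Pool.Agent.helper94.AW.WR2
import Pool.Agent.helper94.AW.WR2b
import Pool.Agent.helper94.AW.WR3
import Pool.Agent.helper94.AW.WR4
import Pool.Agent.helper99.AW.WY1
import Pool.Agent.helper1.AG.XE3
import Pool.Agent.helper91.AG.XE6
import Pool.Agent.helper71.AG.BR5
import Pool.Agent.helper17.AG.CH1
import Pool.Agent.helper18.AG.CLG
import Pool.Agent.helper81.AG.CLH
import Pool.Agent.helper81.AG.CLI
import Pool.Agent.helper93.AG.CLJ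
import Pool.Agent.helper99.AG.CLK
import Pool.Agent.helper63.AG.CLL
import Pool.Agent.helper81.AG.FB1
import Pool.Agent.helper71.AG.FB2
import Pool.Agent.helper17.AG.FB4
import Pool.Agent.helper99.AG.FB5
import Pool.Agent.helper14.AG.FC1
import Pool.Agent.helper29.AG.FC2
import Pool.Agent.helper30.AG.FC3
import Pool.Agent.helper15.AG.FC4
import Pool.Agent.helper79.AG.FC7
import Pool.Agent.helper97.AG.IJ2
import Pool.Agent.helper28.AG.PM1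
import Pool.Agent.helper6.AG.PM2
import Pool.Agent.helper52.AG.PM3
import Pool.Agent.helper25.AG.QC1
import Pool.Agent.helper25.AG.QC2
import Pool.Agent.helper14.AG.TW2
import Pool.Agent.helper62.AW.WA1
import Pool.Agent.helper21.AW.WA2
import Pool.Agent.helper62.AW.WA3
import Pool.Agent.helper51.AW.WC1
import Pool.Agent.helper51.AW.WC2
import Pool.Agent.helper4.AW.WC4
import Pool.Agent.helper4.AW.WC5
import Pool.Agent.helper79.AW.WE3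
import Pool.Agent.helper99.AW.WE4
import Pool.Agent.helper4.AW.WE5
import Pool.Agent.helper33.AW.WF1
import Pool.Agent.helper33.AW.WF4
import Pool.Agent.helper84.AW.WH2
import Pool.Agent.helper84.AW.WH4
import Pool.Agent.helper73.AW.WQ1
import Pool.Agent.helper21.AW.WS1
import Pool.Agent.helper73.AW.WS2
import Pool.Agent.helper21.AW.WS3
import Pool.Agent.helper68.AW.WV1
import Pool.Agent.helper68.AW.WV2
import Pool.Agent.helper68.AW.WV6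
import Pool.Agent.helper89.AG.XC1
import Pool.Agent.helper89.AG.XC2
import Pool.Agent.helper89.AG.XE7
import Pool.Agent.helper67.AG.XE8
import Pool.Agent.helper52.AG.XE9
import Pool.Agent.helper69.AG.XF2
import Pool.Agent.helper69.AG.XF3
import Pool.Agent.helper69.AG.XG1
import Pool.Agent.helper58.AG.XR4
import Pool.Agent.helper31.AG.BR3
import Pool.Agent.helper71.AG.BR4
import Pool.Agent.helper51.AG.CLB
import Pool.Agent.helper25.AG.CLC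
import Pool.Agent.helper13.AG.CLM
import Pool.Agent.helper16.AG.FD1
import Pool.Agent.helper67.AG.FD2
import Pool.Agent.helper46.AG.FD4
import Pool.Agent.helper49.AG.FE2
import Pool.Agent.helper49.AG.FE4
import Pool.Agent.helper63.AG.FE5
import Pool.Agent.helper55.AG.FE6
import Pool.Agent.helper73.AW.WP1
import Pool.Agent.helper84.AW.WV4
import Pool.Agent.helper84.AW.WV5
import Pool.Agent.helper35.AG.XC4
import Pool.Agent.helper35.AG.XC5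
import Pool.Agent.helper79.AG.XG2
import Pool.Agent.helper73.AW.WD
import Pool.Agent.helper7.AG.FE1
import Pool.Agent.helper55.AG.FE3
import Pool.Agent.helper93.AG.FE7
import Pool.Agent.helper58.AG.XR5
import Pool.Agent.helper26.AG.XR6
import Pool.Agent.helper46.AG.XG4

/-!
Wiring of all modules (MP_a29257_gt).
-/

namespace AdSBend

theorem BD1_ok : BD1_stmt := BD1
theorem BD2_ok : BD2_stmt := BD2 BD1_ok
theorem BD3_ok : BD3_stmt := BD3 BD1_ok BD2_ok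
theorem BD4_ok : BD4_stmt := BD4 BD3_ok
theorem BD5_ok : BD5_stmt := BD5
theorem BD6_ok : BD6_stmt := BD6
theorem BD7_ok : BD7_stmt := BD7 BD1_ok BD2_ok
theorem BD8_ok : BD8_stmt := BD8 BD2_ok BD4_ok BD5_ok BD6_ok BD7_ok
theorem BD9_ok : BD9_stmt := BD9 BD1_ok BD2_ok
theorem BR1_ok : BR1_stmt := BR1
theorem BR2_ok : BR2_stmt := BR2
theorem CH2_ok : CH2_stmt := CH2 BD4_ok
theorem CLA_ok : CLA_stmt := CLA
theorem CLE_ok : CLE_stmt := CLE BD1_ok BD2_ok BD6_ok BD8_ok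
theorem FA0_ok : FA0_stmt := FA0
theorem FA1_ok : FA1_stmt := FA1 FA0_ok BD6_ok BD8_ok
theorem FA4_ok : FA4_stmt := FA4
theorem FB3_ok : FB3_stmt := FB3
theorem FC5_ok : FC5_stmt := FC5
theorem FC6_ok : FC6_stmt := FC6
theorem GM3_ok : GM3_stmt := GM3 BD5_ok BD8_ok
theorem GM6_ok : GM6_stmt := GM6 BD8_ok
theorem GM7_ok : GM7_stmt := GM7 BD2_ok BD7_ok BD8_ok
theorem PT1_ok : PT1_stmt := PT1
theorem PT2_ok : PT2_stmt := PT2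
theorem PT4_ok : PT4_stmt := PT4 BD4_ok
theorem PT5_ok : PT5_stmt := PT5 PT1_ok BD6_ok
theorem PT6_ok : PT6_stmt := PT6
theorem TW1_ok : TW1_stmt := TW1 BD8_ok
theorem WA0_ok : WA0_stmt := WA0
theorem WA4_ok : WA4_stmt := WA4
theorem WH1_ok : WH1_stmt := WH1 WA4_ok
theorem WH3_ok : WH3_stmt := WH3
theorem WH3b_ok : WH3b_stmt := WH3b FA4_ok Pool.Agent.helper73.AD.TP_ok Pool.Agent.helper73.AD.TD_ok
theorem WR1_ok : WR1_stmt := WR1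
theorem WV3a_ok : WV3a_stmt := WV3a
theorem WV3b_ok : WV3b_stmt := WV3b
theorem WV3c_ok : WV3c_stmt := WV3c
theorem XA1_ok : XA1_stmt := XA1
theorem XA2_ok : XA2_stmt := XA2
theorem XA3_ok : XA3_stmt := XA3
theorem XB1_ok : XB1_stmt := XB1 Pool.Agent.helper73.AD.KD_ok Pool.Agent.helper73.AD.GS_ok Pool.Agent.helper73.AD.BF_ok
theorem XB2_ok : XB2_stmt := XB2 Pool.Agent.helper73.AD.QB_ok Pool.Agent.helper73.AD.BF_ok
theorem XB3_ok : XB3_stmt := XB3 Pool.Agent.helper73.AD.KD_ok Pool.Agent.helper73.AD.GS_ok Pool.Agent.helper73.AD.BF_ok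
theorem XE0_ok : XE0_stmt := XE0 BD6_ok BD7_ok BD8_ok GM6_ok
theorem XE1_ok : XE1_stmt := XE1 BD3_ok BD4_ok
theorem XG3_ok : XG3_stmt := XG3 Pool.Agent.helper73.AD.GS_ok Pool.Agent.helper73.AD.BF_ok
theorem XR1_ok : XR1_stmt := XR1 Pool.Agent.helper73.AD.GS_ok Pool.Agent.helper73.AD.BF_ok Pool.Agent.helper73.AD.KD_ok
theorem XR2_ok : XR2_stmt := XR2 Pool.Agent.helper73.AD.GS_ok Pool.Agent.helper73.AD.BF_ok XR1_ok
theorem XR3_ok : XR3_stmt := XR3 XR2_ok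
theorem BD10_ok : BD10_stmt := BD10 BD1_ok BD2_ok BD6_ok BD8_ok BD4_ok
theorem BD11_ok : BD11_stmt := BD11 BD4_ok BD5_ok BD6_ok BD7_ok
theorem BD12_ok : BD12_stmt := BD12 BD3_ok
theorem CLD_ok : CLD_stmt := CLD BD8_ok PT5_ok GM6_ok
theorem CLF_ok : CLF_stmt := CLF BD2_ok BD6_ok BD7_ok BD8_ok BD9_ok BD12_ok
theorem FA2_ok : FA2_stmt := FA2 FA0_ok BD2_ok BD4_ok BD6_ok BD7_ok BD8_ok TW1_ok
theorem FA3_ok : FA3_stmt := FA3 FA0_ok FA1_ok FA2_ok TW1_ok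
theorem FD3_ok : FD3_stmt := FD3 BD8_ok TW1_ok
theorem GM1_ok : GM1_stmt := GM1 BD6_ok BD8_ok PT5_ok
theorem GM2_ok : GM2_stmt := GM2 BD8_ok GM1_ok
theorem GM4_ok : GM4_stmt := GM4 GM1_ok PT1_ok PT5_ok BD8_ok
theorem PN1_ok : PN1_stmt := PN1 GM3_ok BD12_ok
theorem PN2_ok : PN2_stmt := PN2 BD2_ok BD12_ok PN1_ok
theorem PN5_ok : PN5_stmt := PN5 PT1_ok BD2_ok
theorem PT3_ok : PT3_stmt := PT3 BD4_ok BD12_ok
theorem TF1_ok : TF1_stmt := TF1 GM1_ok BD8_ok BD10_ok BD11_ok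
theorem TF2_ok : TF2_stmt := TF2 GM1_ok BD11_ok TF1_ok FA2_ok
theorem WC3_ok : WC3_stmt := WC3 FA0_ok BD6_ok BD7_ok BD8_ok PT1_ok PT5_ok GM1_ok GM2_ok
theorem WE1_ok : WE1_stmt := WE1 BD3_ok BD4_ok PT3_ok PN2_ok
theorem WF0_ok : WF0_stmt := WF0 GM1_ok GM2_ok TW1_ok PT1_ok BD2_ok
theorem XC3_ok : XC3_stmt := XC3 BD2_ok BD4_ok BD6_ok BD7_ok BD8_ok BD11_ok PT1_ok PT5_ok GM1_ok GM7_ok
theorem XE2_ok : XE2_stmt := XE2 BD4_ok BD8_ok BD11_ok XE0_ok BD2_ok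
theorem XE4_ok : XE4_stmt := XE4 BD4_ok BD6_ok BD7_ok BD11_ok PT1_ok GM1_ok GM3_ok TW1_ok
theorem XF1_ok : XF1_stmt := XF1 BD11_ok
theorem GM5_ok : GM5_stmt := GM5 GM4_ok PT2_ok PT3_ok PT5_ok
theorem HX1_ok : HX1_stmt := HX1 BD2_ok BD3_ok BD8_ok GM1_ok GM2_ok PN2_ok
theorem HX2_ok : HX2_stmt := HX2 HX1_ok BD4_ok
theorem HX3_ok : HX3_stmt := HX3 HX1_ok GM2_ok
theorem HX4_ok : HX4_stmt := HX4 GM1_ok HX1_ok HX3_ok
theorem HX5_ok : HX5_stmt := HX5 BD3_ok GM1_ok GM3_ok GM7_ok HX1_ok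
theorem HX6_ok : HX6_stmt := HX6 BD2_ok BD3_ok BD4_ok BD5_ok BD8_ok BD12_ok GM1_ok GM3_ok GM6_ok GM7_ok PN2_ok HX1_ok HX2_ok HX4_ok
theorem HX7_ok : HX7_stmt := HX7 HX1_ok HX2_ok HX4_ok HX6_ok PN2_ok GM1_ok GM3_ok GM7_ok BD2_ok BD3_ok BD4_ok BD12_ok
theorem HX8_ok : HX8_stmt := HX8 HX1_ok HX5_ok PN2_ok GM1_ok BD2_ok BD3_ok BD4_ok
theorem PN3_ok : PN3_stmt := PN3 PT1_ok PT2_ok PT3_ok PT4_ok PT5_ok BD6_ok BD12_ok GM5_ok PN1_ok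
theorem PN4_ok : PN4_stmt := PN4 BD12_ok PT1_ok PT3_ok PN1_ok
theorem PN6_ok : PN6_stmt := PN6 PT2_ok PT3_ok PT4_ok GM5_ok PN1_ok
theorem TW3_ok : TW3_stmt := TW3 TW1_ok BD6_ok BD8_ok PT1_ok GM1_ok GM2_ok GM5_ok PN3_ok PN6_ok
theorem WE2_ok : WE2_stmt := WE2 BD3_ok BD4_ok BD12_ok GM1_ok GM2_ok GM3_ok PN2_ok HX1_ok HX6_ok HX7_ok WE1_ok
theorem WF2_ok : WF2_stmt := WF2 BD3_ok BD4_ok BD12_ok PT1_ok PT3_ok PT5_ok GM3_ok GM5_ok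
theorem WF3_ok : WF3_stmt := WF3 BD2_ok BD4_ok BD12_ok PT1_ok PT2_ok PT3_ok PT5_ok GM3_ok GM5_ok PN2_ok PN4_ok CH2_ok
theorem WR2_ok : WR2_stmt := WR2 BD4_ok BD5_ok GM1_ok GM6_ok GM7_ok HX1_ok HX6_ok HX7_ok
theorem WR2b_ok : WR2b_stmt := WR2b BD4_ok BD5_ok GM1_ok GM2_ok GM6_ok GM7_ok PN2_ok HX1_ok
theorem WR3_ok : WR3_stmt := WR3 WR2_ok WR2b_ok
theorem WR4_ok : WR4_stmt := WR4 BD12_ok GM1_ok PN2_ok WR2b_ok WR2_ok
theorem WY1_ok : WY1_stmt := WY1 BD6_ok PT1_ok PT5_ok GM4_ok GM1_ok PN5_ok HX1_ok HX6_ok HX7_ok WR2b_ok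
theorem XE3_ok : XE3_stmt := XE3 BD4_ok BD12_ok PT1_ok PT3_ok GM5_ok PN1_ok PN3_ok
theorem XE5_ok : XE5_stmt := XE5 BD2_ok BD4_ok BD6_ok BD7_ok BD11_ok BD12_ok PT1_ok GM1_ok GM5_ok PT3_ok PN1_ok PN3_ok TW1_ok XE3_ok XE4_ok
theorem XE6_ok : XE6_stmt := XE6 BD2_ok BD3_ok BD4_ok BD11_ok GM5_ok PN3_ok PN4_ok XE3_ok XE4_ok XE5_ok
theorem BR5_ok : BR5_stmt := BR5 BD2_ok BD4_ok BD5_ok PT1_ok PT3_ok PN1_ok PN3_ok PN4_ok PN5_ok PN6_ok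
theorem CH1_ok : CH1_stmt := CH1 BD2_ok BD4_ok BD12_ok GM1_ok GM5_ok PN1_ok
theorem CLG_ok : CLG_stmt := CLG BD6_ok BD12_ok PT1_ok PT3_ok PT5_ok GM5_ok PN1_ok PN3_ok PN4_ok
theorem CLH_ok : CLH_stmt := CLH BD2_ok BD3_ok BD4_ok BD7_ok BD8_ok PT1_ok PT3_ok PT5_ok GM5_ok PN5_ok
theorem CLI_ok : CLI_stmt := CLI BD8_ok GM1_ok PN3_ok PN4_ok PN5_ok CLF_ok CLG_ok
theorem CLJ_ok : CLJ_stmt := CLJ BD4_ok BD8_ok PN5_ok GM6_ok CLE_ok CLH_ok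
theorem CLK_ok : CLK_stmt := CLK BD2_ok BD3_ok BD4_ok BD6_ok BD8_ok BD10_ok GM1_ok PN2_ok PN3_ok PN4_ok PN5_ok CLD_ok CLF_ok CLI_ok CLJ_ok
theorem CLL_ok : CLL_stmt := CLL BD2_ok BD3_ok BD4_ok BD6_ok BD7_ok GM1_ok PN2_ok HX1_ok
theorem FB1_ok : FB1_stmt := FB1 FA1_ok FA3_ok GM1_ok GM2_ok HX1_ok
theorem FB2_ok : FB2_stmt := FB2 FA0_ok FB1_ok HX1_ok HX7_ok GM1_ok
theorem FB4_ok : FB4_stmt := FB4 GM1_ok GM2_ok FA0_ok FA1_ok FB1_ok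
theorem FB5_ok : FB5_stmt := FB5 HX1_ok FA0_ok FB1_ok FB2_ok FB4_ok
theorem FC1_ok : FC1_stmt := FC1 GM1_ok BD12_ok HX1_ok HX8_ok
theorem FC2_ok : FC2_stmt := FC2 GM1_ok HX1_ok CH1_ok FB5_ok FC1_ok
theorem FC3_ok : FC3_stmt := FC3 FA0_ok FB1_ok FB4_ok HX1_ok GM1_ok
theorem FC4_ok : FC4_stmt := FC4 GM1_ok FA4_ok FB1_ok FB4_ok FC3_ok
theorem FC7_ok : FC7_stmt := FC7 TW1_ok FA1_ok FA4_ok FB4_ok FC4_ok FC5_ok FC6_ok
theorem IJ2_ok : IJ2_stmt := IJ2 BD6_ok BD8_ok GM1_ok GM2_ok PN3_ok PN4_ok PN5_ok PN6_ok HX1_ok FA1_ok FB1_ok FB2_ok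
theorem PM1_ok : PM1_stmt := PM1 GM5_ok PN6_ok
theorem PM2_ok : PM2_stmt := PM2 PN6_ok
theorem PM3_ok : PM3_stmt := PM3 PN5_ok PN6_ok
theorem QC1c_ok : QC1c_stmt := QC1 BD8_ok BD11_ok GM1_ok PN3_ok PN4_ok PN5_ok TW1_ok BR5_ok
theorem QC2_ok : QC2_stmt := QC2 BD8_ok BD11_ok GM1_ok PN3_ok PN4_ok PN5_ok TW1_ok BR5_ok
theorem TW2_ok : TW2_stmt := TW2 GM1_ok GM2_ok PN3_ok PN5_ok PM1_ok PM2_ok PM3_ok TW1_ok
theorem WA1_ok : WA1_stmt := WA1 GM1_ok GM2_ok TW1_ok FB1_ok WA0_ok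
theorem WA2_ok : WA2_stmt := WA2 HX1_ok WA1_ok
theorem WA3_ok : WA3_stmt := WA3 GM1_ok HX1_ok WA0_ok WA1_ok WA2_ok WA4_ok
theorem WC1_ok : WC1_stmt := WC1 WR2b_ok HX1_ok HX7_ok BD4_ok GM1_ok
theorem WC2_ok : WC2_stmt := WC2 WC1_ok WE1_ok WE2_ok BD4_ok PN2_ok
theorem WC4_ok : WC4_stmt := WC4 WC1_ok WR2b_ok FA0_ok FB1_ok FB4_ok
theorem WC5_ok : WC5_stmt := WC5 BD4_ok GM1_ok WC1_ok WC2_ok WC3_ok WC4_ok
theorem WE3_ok : WE3_stmt := WE3 WA1_ok WA4_ok WR2b_ok WE1_ok WE2_ok FB4_ok HX1_ok HX6_ok PN2_ok BD4_ok GM1_ok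
theorem WE4_ok : WE4_stmt := WE4 BD2_ok BD4_ok GM1_ok HX1_ok HX7_ok WF0_ok WF2_ok
theorem WE5_ok : WE5_stmt := WE5 BD4_ok WA1_ok WE3_ok WE4_ok
theorem WF1_ok : WF1_stmt := WF1 GM5_ok PN5_ok WF0_ok WR2b_ok PT1_ok
theorem WF4_ok : WF4_stmt := WF4 BD4_ok BD12_ok PT1_ok PT3_ok GM1_ok GM2_ok GM3_ok TW1_ok FB1_ok WR2b_ok WF3_ok WF2_ok WF0_ok WA0_ok
theorem WH2_ok : WH2_stmt := WH2 GM1_ok HX1_ok FA0_ok FB1_ok FB4_ok WA1_ok
theorem WH4_ok : WH4_stmt := WH4 TW1_ok FC4_ok FC7_ok FB4_ok WA1_ok WH1_ok WH2_ok WH3_ok WH3b_ok Pool.Agent.helper73.AD.BF_ok Pool.Agent.helper73.AD.GS_ok HX1_ok FA0_ok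
theorem WQ1_ok : WQ1_stmt := WQ1 WA0_ok WA1_ok WR2_ok WR2b_ok WR4_ok WY1_ok WF0_ok WF1_ok WF3_ok WE1_ok WC1_ok WC3_ok GM1_ok GM2_ok GM3_ok BD12_ok BD4_ok PT1_ok PT3_ok
theorem WS1_ok : WS1_stmt := WS1 WA0_ok WA1_ok WA3_ok WR2_ok WR2b_ok WR3_ok
theorem WS2_ok : WS2_stmt := WS2 WA0_ok WA1_ok WA4_ok WR2_ok WR2b_ok WR3_ok WF0_ok WF1_ok WF2_ok WS1_ok GM1_ok
theorem WS3_ok : WS3_stmt := WS3 WA1_ok WR2b_ok
theorem WV1_ok : WV1_stmt := WV1 TW1_ok TF1_ok TW2_ok TW3_ok PN3_ok PN5_ok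
theorem WV2_ok : WV2_stmt := WV2 TW1_ok TF1_ok TW2_ok TW3_ok PN3_ok PN5_ok
theorem WV6_ok : WV6_stmt := WV6 HX1_ok FB1_ok WA0_ok WA1_ok
theorem XC1_ok : XC1_stmt := XC1 BD4_ok PN5_ok BR2_ok GM6_ok CLD_ok CLE_ok CLH_ok
theorem XC2_ok : XC2_stmt := XC2 BD2_ok BD3_ok BD4_ok BD6_ok BD12_ok PT1_ok PT2_ok PT4_ok PT5_ok GM1_ok GM3_ok GM4_ok GM7_ok BR2_ok XC1_ok
theorem XE7_ok : XE7_stmt := XE7 BD2_ok BD3_ok BD4_ok BD6_ok BD7_ok BD8_ok BD9_ok BD11_ok BD12_ok GM1_ok PN2_ok PN3_ok PN4_ok TW1_ok TF2_ok FB1_ok XE3_ok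
theorem XE8_ok : XE8_stmt := XE8 BD2_ok PT1_ok PN5_ok TF1_ok TW2_ok XE1_ok XE2_ok XE4_ok XE6_ok XE7_ok
theorem XE9_ok : XE9_stmt := XE9 BD2_ok BD3_ok BD4_ok BD6_ok BD7_ok BD8_ok BD11_ok BD12_ok TW1_ok GM1_ok GM5_ok PN3_ok PN4_ok XE3_ok XE7_ok
theorem XF2_ok : XF2_stmt := XF2 BD4_ok PT1_ok PT3_ok PN1_ok PN3_ok PN6_ok TW1_ok TF2_ok XE9_ok
theorem XF3_ok : XF3_stmt := XF3 BD4_ok PT1_ok PT3_ok PN1_ok PN3_ok PN6_ok TW1_ok TF2_ok BD2_ok XE9_ok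
theorem XG1_ok : XG1_stmt := XG1 PM2_ok TW1_ok
theorem XR4_ok : XR4_stmt := XR4 BD11_ok GM1_ok PN2_ok PN3_ok QC2_ok TF2_ok FA1_ok FB1_ok
theorem BR3_ok : BR3_stmt := BR3 BD2_ok BD4_ok BD5_ok BD6_ok BD8_ok BD11_ok PT1_ok PT3_ok GM1_ok GM2_ok PN1_ok PN3_ok PN4_ok PN6_ok PM1_ok TW1_ok
theorem BR4_ok : BR4_stmt := BR4 BD2_ok BR3_ok
theorem CLB_ok : CLB_stmt := CLB BD4_ok BD6_ok BD8_ok PT1_ok GM1_ok GM5_ok PN3_ok PN4_ok PN5_ok CLA_ok CLG_ok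
theorem CLC_ok : CLC_stmt := CLC BD2_ok BD12_ok CLB_ok
theorem CLM_ok : CLM_stmt := CLM PN2_ok PN3_ok PN4_ok HX1_ok CLC_ok CLK_ok CLL_ok
theorem FD1_ok : FD1_stmt := FD1 BD6_ok BD8_ok BD9_ok BD11_ok GM1_ok PN3_ok PN4_ok PN5_ok CH1_ok TW1_ok TW2_ok
theorem FD2_ok : FD2_stmt := FD2 FD1_ok FC6_ok TW1_ok TW2_ok TW3_ok TF2_ok FA2_ok GM1_ok BD11_ok PN3_ok PN5_ok
theorem FD4_ok : FD4_stmt := FD4 BD4_ok BD8_ok BD11_ok GM1_ok GM2_ok PN3_ok TW1_ok TW2_ok FC6_ok FD1_ok FD3_ok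
theorem FE2_ok : FE2_stmt := FE2 BD2_ok BD12_ok GM1_ok CH2_ok BR2_ok CLM_ok FB3_ok FC2_ok
theorem FE4_ok : FE4_stmt := FE4 BR4_ok BR5_ok PM2_ok PN5_ok
theorem FE5_ok : FE5_stmt := FE5 BD11_ok GM1_ok PN2_ok PN3_ok BR3_ok QC2_ok TF2_ok FA1_ok FB1_ok
theorem FE6_ok : FE6_stmt := FE6 IJ2_ok FB4_ok FB5_ok
theorem WP1_ok : WP1_stmt := WP1 WA0_ok WA1_ok WF0_ok WY1_ok WR4_ok WF4_ok WS2_ok WS3_ok WE4_ok WE5_ok WC5_ok WQ1_ok GM1_ok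
theorem WV4_ok : WV4_stmt := WV4 GM1_ok HX1_ok TW1_ok WA0_ok WA1_ok WF1_ok WV1_ok WV2_ok WV3a_ok WV3b_ok WV3c_ok WV6_ok
theorem WV5_ok : WV5_stmt := WV5 GM1_ok HX1_ok WA1_ok WV1_ok WV6_ok
theorem XC4_ok : XC4_stmt := XC4 BD2_ok BD4_ok BD6_ok BD7_ok BD11_ok BD12_ok PT1_ok PT5_ok CLM_ok XC2_ok XC3_ok
theorem XC5_ok : XC5_stmt := XC5 GM1_ok TF2_ok FB1_ok FB4_ok FC7_ok XC4_ok
theorem XG2_ok : XG2_stmt := XG2 XB1_ok XB2_ok XB3_ok XC5_ok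
theorem WD_ok : WD_stmt := WD TF1_ok TW2_ok PN3_ok WQ1_ok WP1_ok WH4_ok WV4_ok WV5_ok
theorem FE1_ok : FE1_stmt := FE1 FA1_ok FB4_ok FC7_ok FD2_ok FD4_ok WD_ok TW2_ok TF2_ok PN3_ok
theorem FE3_ok : FE3_stmt := FE3 BD8_ok GM1_ok PN3_ok TW2_ok FE1_ok Pool.Agent.helper73.AD.CARD_ok
theorem FE7_ok : FE7_stmt := FE7 PN3_ok PN5_ok BR1_ok TF2_ok TW2_ok FB4_ok FE1_ok FE2_ok FE3_ok FE4_ok FE5_ok FE6_ok Pool.Agent.helper73.AD.MAIN_ok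
theorem XR5_ok : XR5_stmt := XR5 BD11_ok PN3_ok PN5_ok TW2_ok TF2_ok FB4_ok FE1_ok XR4_ok XE8_ok
theorem XR6_ok : XR6_stmt := XR6 XR3_ok XR5_ok TF2_ok FB4_ok
theorem XG4_ok : XG4_stmt := XG4 BD8_ok BD11_ok GM1_ok PN3_ok PN5_ok BR2_ok TW2_ok FB4_ok TF2_ok FE1_ok FE2_ok FE6_ok XA3_ok XB3_ok XR4_ok XR6_ok XE2_ok XE8_ok XF1_ok XF2_ok XF3_ok XG1_ok XG2_ok XG3_ok

end AdSBend
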