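import Pool.Agent.helper73.AD.Wire
import Pool.Agent.helper30.AD.CARD

/-!
Wiring of the analytic statements (MP_a29257_gt).
-/

namespace Pool.Agent.helper73.AD

theorem BF_ok : BF_stmt := BF_of DT
theorem QB_ok : QB_stmt := QB_of BF_ok
theorem TD_ok : TD_stmt := TD_of DT TP
theorem KD_ok : KD_stmt := KD_of GS CV KB KC TD_ok BF_ok
theorem EU_ok : EU_stmt := EU_of BF_ok
theorem BX_ok : BX_stmt := BX_of BF_ok EU_ok
theorem XA_ok : XA_stmt := XA_of GS DT BD BF_ok QB_ok EU_ok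
theorem GS_ok : GS_stmt := GS
theorem DT_ok : DT_stmt := DT
theorem TP_ok : TP_stmt := TP
theorem CV_ok : CV_stmt := CV
theorem MAIN_ok : MAIN_stmt := MAIN
theorem CARD_ok : CARD_stmt := CARD_of GS BF_ok BX_ok XA_ok

end Pool.Agent.helper73.AD
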